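import Mathlib
import Pool.Agent.H104Z.Lip.Main

set_option autoImplicit false

/-! `L^γ[0,1]` is a Lipschitz interpolation space between `L^β[0,1]` and `L^α[0,1]` for all
`1 ≤ β < γ < α < ∞`. -/

namespace Pool.Agent.Results.MP_6e3e44_an.AllExponentsLipschitz

open MeasureTheory
open scoped ENNReal NNReal

/-- Lebesgue measure on `[0,1]`. -/
noncomputable abbrev leb : Measure ℝ := volume.restrict (Set.Icc (0 : ℝ) 1)

/-- `L^γ[0,1]` is a Lipschitz interpolation space with constant `C` between `L^β[0,1]` and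
`L^α[0,1]`: every map `U` of `L^β` into itself that maps `L^α` into itself, is `M₀`-Lipschitz for
the `L^β` norm and `M₁`-Lipschitz on `L^α` for the `L^α` norm, maps `L^γ` into itself and is
`C * max M₀ M₁`-Lipschitz there for the `L^γ` norm. -/
def LipschitzInterpolation (β γ α : ℝ≥0∞) (C : ℝ≥0) : Prop :=
  ∀ (U : Lp ℂ β leb → Lp ℂ β leb) (M₀ M₁ : ℝ≥0),
    (∀ x : Lp ℂ β leb, MemLp x α leb → MemLp (U x) α leb) →
    (∀ x y : Lp ℂ β leb, eLpNorm (⇑(U x) - ⇑(U y)) β leb ≤ M₀ * eLpNorm (⇑x - ⇑y) β leb) →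
    (∀ x y : Lp ℂ β leb, MemLp x α leb → MemLp y α leb →
      eLpNorm (⇑(U x) - ⇑(U y)) α leb ≤ M₁ * eLpNorm (⇑x - ⇑y) α leb) →
    (∀ x : Lp ℂ β leb, MemLp x γ leb → MemLp (U x) γ leb) ∧
      ∀ x y : Lp ℂ β leb, MemLp x γ leb → MemLp y γ leb →
        eLpNorm (⇑(U x) - ⇑(U y)) γ leb ≤ (C * max M₀ M₁ : ℝ≥0) * eLpNorm (⇑x - ⇑y) γ leb

theorem result (β γ α : ℝ≥0∞) (h1 : 1 ≤ β) (h2 : β < γ) (h3 : γ < α) (h4 : α < ∞) :
    ∃ C : ℝ≥0, 0 < C ∧ LipschitzInterpolation β γ α C := by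
  obtain ⟨C, hC, h⟩ := Pool.Agent.H104Z.Lip.main β γ α h1 h2 h3 h4
  refine ⟨C, hC, fun U M₀ M₁ hU hβ hα => ?_⟩
  have h5 := h leb U (max M₀ M₁) hU
    (fun x y => (hβ x y).trans (mul_le_mul_left (by exact_mod_cast le_max_left M₀ M₁) _))
    (fun x y hx hy => (hα x y hx hy).trans
      (mul_le_mul_left (by exact_mod_cast le_max_right M₀ M₁) _))
  refine ⟨h5.1, fun x y hx hy => ?_⟩
  rw [ENNReal.coe_mul]
  exact h5.2 x y hx hy

end Pool.Agent.Results.MP_6e3e44_an.AllExponentsLipschitz
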